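import Mathlib

set_option autoImplicit false

noncomputable section

namespace Pool.Agent.H968.RD

def W0 (A B C : ℝ) : ℝ :=
  233999/16777216*A*B*C^2 + 1258388243/700616540160*A*B - 458017/16777216*A*B^2*C + 214319/16777216*A*B^2*C^2 + 210599/16777216*A*B^2 + 653452499/233538846720*A*C - 286917/16777216*A*C^2 + 614292691/175154135040*A - 42955/4194304*A^2*B*C - 177371/8388608*A^2*B*C^2 - 150479893/700616540160*A^2*B - 31823/8388608*A^2*B^2*C + 430833/16777216*A^2*B^2*C^2 + 49073/8388608*A^2*B^2 + 355647923/70061654016*A^2*C + 195151/8388608*A^2*C^2 + 175262269/46707769344*A^2 + 3737834461/350308270080*B*C - 5951/2097152*B*C^2 + 348327907/87577067520*B - 75927/8388608*B^2*C + 7835/2097152*B^2*C^2 + 94713/8388608*B^2 + 92147021/46707769344*C + 2218071031/350308270080*C^2 + 1497968857/700616540160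

def T0 (B C N : ℝ) : ℝ :=
  233999/16777216*B*C*N^2 + 1258388243/700616540160*B^3*C - 458017/16777216*B^2*C^2*N + 214319/16777216*B*C^2*N^2 + 210599/16777216*B^3*C^2 + 653452499/233538846720*B^2*N - 286917/16777216*B*N^2 + 614292691/175154135040*B^3 - 42955/4194304*B^3*C*N - 177371/8388608*B^2*C*N^2 - 150479893/700616540160*B^4*C - 31823/8388608*B^3*C^2*N + 430833/16777216*B^2*C^2*N^2 + 49073/8388608*B^4*C^2 + 355647923/70061654016*B^3*N + 195151/8388608*B^2*N^2 + 175262269/46707769344*B^4 + 3737834461/350308270080*B*C*N - 5951/2097152*C*N^2 + 348327907/87577067520*B^2*C - 75927/8388608*B*C^2*N + 7835/2097152*C^2*N^2 + 94713/8388608*B^2*C^2 + 92147021/46707769344*B*N + 2218071031/350308270080*N^2 + 1497968857/700616540160*B^2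

def W1 (A B C : ℝ) : ℝ :=
  190381/16777216*A*B*C^2 + 32784427241/2802466160640*A*B - 8652044483/280246616064*A*B^2*C + 303917/16777216*A*B^2*C^2 + 10817384921/700616540160*A*B^2 + 2077065291/311385128960*A*C - 206643/16777216*A*C^2 + 53806415/280246616064*A - 316237/16777216*A^2*B*C - 249419/16777216*A^2*B*C^2 + 12101488121/2802466160640*A^2*B + 41677/16777216*A^2*B^2*C + 756343/33554432*A^2*B^2*C^2 + 90969/33554432*A^2*B^2 + 3487488943/280246616064*A^2*C + 675281/33554432*A^2*C^2 + 798116579/2802466160640*A^2 + 3923829727/350308270080*B*C + 143/131072*B*C^2 + 8134141939/1401233080320*B + 1007/1048576*B^2*C - 17491/16777216*B^2*C^2 + 42957/8388608*B^2 + 6482949349/2802466160640*C + 3393229/1073741824*C^2 + 2413194679/934155386880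

def T1 (B C N : ℝ) : ℝ :=
  190381/16777216*B*C*N^2 + 32784427241/2802466160640*B^3*C - 8652044483/280246616064*B^2*C^2*N + 303917/16777216*B*C^2*N^2 + 10817384921/700616540160*B^3*C^2 + 2077065291/311385128960*B^2*N - 206643/16777216*B*N^2 + 53806415/280246616064*B^3 - 316237/16777216*B^3*C*N - 249419/16777216*B^2*C*N^2 + 12101488121/2802466160640*B^4*C + 41677/16777216*B^3*C^2*N + 756343/33554432*B^2*C^2*N^2 + 90969/33554432*B^4*C^2 + 3487488943/280246616064*B^3*N + 675281/33554432*B^2*N^2 + 798116579/2802466160640*B^4 + 3923829727/350308270080*B*C*N + 143/131072*C*N^2 + 8134141939/1401233080320*B^2*C + 1007/1048576*B*C^2*N - 17491/16777216*C^2*N^2 + 42957/8388608*B^2*C^2 + 6482949349/2802466160640*B*N + 3393229/1073741824*N^2 + 2413194679/934155386880*B^2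

def W (s A B C : ℝ) : ℝ := (1 - s) * W0 A B C + s * W1 A B C

def T (s B C N : ℝ) : ℝ := (1 - s) * T0 B C N + s * T1 B C N

def KK : ℝ := 6712418929/700616540160

theorem T0_eq (B C N : ℝ) (hB : B ≠ 0) : T0 B C N = B^2 * W0 B C (N/B) := by
  unfold T0 W0
  field_simp
  try ring

theorem T1_eq (B C N : ℝ) (hB : B ≠ 0) : T1 B C N = B^2 * W1 B C (N/B) := by
  unfold T1 W1
  field_simp
  try ring

theorem T_eq (s B C N : ℝ) (hB : B ≠ 0) : T s B C N = B^2 * W s B C (N/B) := by
  unfold T W
  rw [T0_eq _ _ _ hB, T1_eq _ _ _ hB]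
  ring

end Pool.Agent.H968.RD
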