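import Mathlib
import Pool.Agent.H968.RD.Blk1
import Pool.Agent.H968.RD.Blk2
import Pool.Agent.H968.RD.Blk3
import Pool.Agent.H968.RD.Blk4
import Pool.Agent.H968.RD.Blk5
import Pool.Agent.H968.RD.Blk6
import Pool.Agent.H968.RD.Defs
set_option autoImplicit false

noncomputable section

namespace Pool.Agent.H968.RD

theorem coer0 (X Y Z : ℝ) (hX : 0 ≤ X+5/8) (hY : 0 ≤ Y+5/8) :
    0 ≤ W0 (X+1) (Y+1) (Z+1) + KK*((X+1)*(Y+1)*(Z+1)) - 1/2048*((X+1)*(Y+1)*(Z+1))*((X+1)+(Y+1)+(Z+1)) := by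
  have h : W0 (X+1) (Y+1) (Z+1) + KK*((X+1)*(Y+1)*(Z+1)) - 1/2048*((X+1)*(Y+1)*(Z+1))*((X+1)+(Y+1)+(Z+1)) =
      qJ0000_0 1 (Z) (Y) (Y*Z) (X) (X*Z) (X*Y) (X*Y*Z) := by
    unfold W0 KK qJ0000_0
    ring
  have n0 := qJ0000_0_nonneg 1 (Z) (Y) (Y*Z) (X) (X*Z) (X*Y) (X*Y*Z)
  rw [h]
  positivity

theorem coer1 (X Y Z : ℝ) (hX : 0 ≤ X+5/8) (hY : 0 ≤ Y+5/8) :
    0 ≤ W1 (X+1) (Y+1) (Z+1) + KK*((X+1)*(Y+1)*(Z+1)) - 1/2048*((X+1)*(Y+1)*(Z+1))*((X+1)+(Y+1)+(Z+1)) := by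
  have h : W1 (X+1) (Y+1) (Z+1) + KK*((X+1)*(Y+1)*(Z+1)) - 1/2048*((X+1)*(Y+1)*(Z+1))*((X+1)+(Y+1)+(Z+1)) =
      qJ1000_0 (Y) (Y*Z) (X) (X*Z) (X*Y) (X*Y*Z) +
      (Y+5/8)*qJ1010_0 1 (Z) (X*Z) +
      (X+5/8)*qJ1100_0 1 (Z) (Y) (Y*Z) := by
    unfold W1 KK qJ1000_0 qJ1010_0 qJ1100_0
    ring
  have n0 := qJ1000_0_nonneg (Y) (Y*Z) (X) (X*Z) (X*Y) (X*Y*Z)
  have n1 := qJ1010_0_nonneg 1 (Z) (X*Z)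
  have n2 := qJ1100_0_nonneg 1 (Z) (Y) (Y*Z)
  rw [h]
  positivity

end Pool.Agent.H968.RD
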