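import Mathlib
import Pool.Agent.H968.RD.Blk1
import Pool.Agent.H968.RD.Blk2
import Pool.Agent.H968.RD.Blk3
import Pool.Agent.H968.RD.Blk4
import Pool.Agent.H968.RD.Blk5
import Pool.Agent.H968.RD.Blk6
import Pool.Agent.H968.RD.Defs
set_option autoImplicit false

noncomputable section

namespace Pool.Agent.H968.RD

theorem ident (s X Y Z : ℝ) :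
    (Y+1)*((1-(1/2+s/8))*(Y+1)+(1/2+s/8)*(X+1)) * W s (X+1) (Y+1) (Z+1) - (X+1) * T s (Y+1) (Z+1) ((1-(1/2+s/8))*(Y+1)+(1/2+s/8)*(X+1))
      - 1/2048*(1-(1/2+s/8)-(1/2+s/8)^2)*(X^2+Y^2+Z^2) =
      (1-s)^2*qG000_0 (X + (1/2+s/8)*Y + Z) (Y*Z) (Y^2) (Y^2*Z) (X*Z) (X*Y) (X*Y*Z) (X*Y^2) (X*Y^2*Z) +
      2*s*(1-s)*qG000_1 (X + (1/2+s/8)*Y + Z) (Y*Z) (Y^2) (Y^2*Z) (X*Z) (X*Y) (X*Y*Z) (X*Y^2) (X*Y^2*Z) +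
      s^2*qG000_2 (X + (1/2+s/8)*Y + Z) (Y*Z) (Y^2) (Y^2*Z) (X*Z) (X*Y) (X*Y*Z) (X*Y^2) (X*Y^2*Z) +
      (1-s)^2*(Y+(1/2+s/8))*qG010_0 (X + (1/2+s/8)*Y + Z) (Y*Z) (X*Z) (X*Y) (X*Y*Z) +
      2*s*(1-s)*(Y+(1/2+s/8))*qG010_1 (X + (1/2+s/8)*Y + Z) (Y*Z) (X*Z) (X*Y) (X*Y*Z) +
      s^2*(Y+(1/2+s/8))*qG010_2 (X + (1/2+s/8)*Y + Z) (Y*Z) (X*Z) (X*Y) (X*Y*Z) +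
      (1-s)^2*(X+(1/2+s/8))*qG100_0 (X + (1/2+s/8)*Y + Z) (Y*Z) (Y^2) (Y^2*Z) (X*Z) (X*Y) (X*Y*Z) +
      2*s*(1-s)*(X+(1/2+s/8))*qG100_1 (X + (1/2+s/8)*Y + Z) (Y*Z) (Y^2) (Y^2*Z) (X*Z) (X*Y) (X*Y*Z) +
      s^2*(X+(1/2+s/8))*qG100_2 (X + (1/2+s/8)*Y + Z) (Y*Z) (Y^2) (Y^2*Z) (X*Z) (X*Y) (X*Y*Z) +
      (1-s)^2*(X+(1/2+s/8))*(Y+(1/2+s/8))*qG110_0 (X + (1/2+s/8)*Y + Z) (Y*Z) (X*Z) (X*Y) (X*Y*Z) +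
      2*s*(1-s)*(X+(1/2+s/8))*(Y+(1/2+s/8))*qG110_1 (X + (1/2+s/8)*Y + Z) (Y*Z) (X*Z) (X*Y) (X*Y*Z) +
      s^2*(X+(1/2+s/8))*(Y+(1/2+s/8))*qG110_2 (X + (1/2+s/8)*Y + Z) (Y*Z) (X*Z) (X*Y) (X*Y*Z) +
      (1-s)*(1-(1/2+s/8)-(1/2+s/8)^2)*qH000_0 (Z) (Y) (X) (Y^2*Z) (X*Y^2*Z) +
      s*(1-(1/2+s/8)-(1/2+s/8)^2)*qH000_1 (Z) (Y) (X) (Y^2*Z) (X*Y^2*Z) +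
      (1-s)*(1-(1/2+s/8)-(1/2+s/8)^2)*(Y+(1/2+s/8))*qH010_0 (Z) (Y) (X) (Y*Z) (X*Z) (X*Y) (X*Y*Z) +
      s*(1-(1/2+s/8)-(1/2+s/8)^2)*(Y+(1/2+s/8))*qH010_1 (Z) (Y) (X) (Y*Z) (X*Z) (X*Y) (X*Y*Z) +
      (1-s)*(1-(1/2+s/8)-(1/2+s/8)^2)*(X+(1/2+s/8))*qH100_0 (Z) (Y) (X) (X*Z) (X*Y) (X*Y*Z) +
      s*(1-(1/2+s/8)-(1/2+s/8)^2)*(X+(1/2+s/8))*qH100_1 (Z) (Y) (X) (X*Z) (X*Y) (X*Y*Z) := by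
  unfold W T W0 W1 T0 T1 qG000_0 qG000_1 qG000_2 qH000_0 qH000_1 qG010_0 qG010_1 qG010_2 qH010_0 qH010_1 qG100_0 qG100_1 qG100_2 qH100_0 qH100_1 qG110_0 qG110_1 qG110_2
  ring

theorem main_ineq (s X Y Z : ℝ) (h0 : 0 ≤ s) (h1 : s ≤ 1) (he : 0 ≤ 1-(1/2+s/8)-(1/2+s/8)^2)
    (hX : 0 ≤ X+(1/2+s/8)) (hY : 0 ≤ Y+(1/2+s/8)) :
    1/2048*(1-(1/2+s/8)-(1/2+s/8)^2)*(X^2+Y^2+Z^2) ≤ (Y+1)*((1-(1/2+s/8))*(Y+1)+(1/2+s/8)*(X+1)) * W s (X+1) (Y+1) (Z+1) - (X+1) * T s (Y+1) (Z+1) ((1-(1/2+s/8))*(Y+1)+(1/2+s/8)*(X+1)) := by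
  have h := ident s X Y Z
  have h2 : 0 ≤ 1 - s := by linarith
  have n1 := qG000_0_nonneg (X + (1/2+s/8)*Y + Z) (Y*Z) (Y^2) (Y^2*Z) (X*Z) (X*Y) (X*Y*Z) (X*Y^2) (X*Y^2*Z)
  have n2 := qG000_1_nonneg (X + (1/2+s/8)*Y + Z) (Y*Z) (Y^2) (Y^2*Z) (X*Z) (X*Y) (X*Y*Z) (X*Y^2) (X*Y^2*Z)
  have n3 := qG000_2_nonneg (X + (1/2+s/8)*Y + Z) (Y*Z) (Y^2) (Y^2*Z) (X*Z) (X*Y) (X*Y*Z) (X*Y^2) (X*Y^2*Z)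
  have n4 := qH000_0_nonneg (Z) (Y) (X) (Y^2*Z) (X*Y^2*Z)
  have n5 := qH000_1_nonneg (Z) (Y) (X) (Y^2*Z) (X*Y^2*Z)
  have n6 := qG010_0_nonneg (X + (1/2+s/8)*Y + Z) (Y*Z) (X*Z) (X*Y) (X*Y*Z)
  have n7 := qG010_1_nonneg (X + (1/2+s/8)*Y + Z) (Y*Z) (X*Z) (X*Y) (X*Y*Z)
  have n8 := qG010_2_nonneg (X + (1/2+s/8)*Y + Z) (Y*Z) (X*Z) (X*Y) (X*Y*Z)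
  have n9 := qH010_0_nonneg (Z) (Y) (X) (Y*Z) (X*Z) (X*Y) (X*Y*Z)
  have n10 := qH010_1_nonneg (Z) (Y) (X) (Y*Z) (X*Z) (X*Y) (X*Y*Z)
  have n11 := qG100_0_nonneg (X + (1/2+s/8)*Y + Z) (Y*Z) (Y^2) (Y^2*Z) (X*Z) (X*Y) (X*Y*Z)
  have n12 := qG100_1_nonneg (X + (1/2+s/8)*Y + Z) (Y*Z) (Y^2) (Y^2*Z) (X*Z) (X*Y) (X*Y*Z)
  have n13 := qG100_2_nonneg (X + (1/2+s/8)*Y + Z) (Y*Z) (Y^2) (Y^2*Z) (X*Z) (X*Y) (X*Y*Z)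
  have n14 := qH100_0_nonneg (Z) (Y) (X) (X*Z) (X*Y) (X*Y*Z)
  have n15 := qH100_1_nonneg (Z) (Y) (X) (X*Z) (X*Y) (X*Y*Z)
  have n16 := qG110_0_nonneg (X + (1/2+s/8)*Y + Z) (Y*Z) (X*Z) (X*Y) (X*Y*Z)
  have n17 := qG110_1_nonneg (X + (1/2+s/8)*Y + Z) (Y*Z) (X*Z) (X*Y) (X*Y*Z)
  have n18 := qG110_2_nonneg (X + (1/2+s/8)*Y + Z) (Y*Z) (X*Z) (X*Y) (X*Y*Z)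
  have hr : 0 ≤ (1-s)^2*qG000_0 (X + (1/2+s/8)*Y + Z) (Y*Z) (Y^2) (Y^2*Z) (X*Z) (X*Y) (X*Y*Z) (X*Y^2) (X*Y^2*Z) +
      2*s*(1-s)*qG000_1 (X + (1/2+s/8)*Y + Z) (Y*Z) (Y^2) (Y^2*Z) (X*Z) (X*Y) (X*Y*Z) (X*Y^2) (X*Y^2*Z) +
      s^2*qG000_2 (X + (1/2+s/8)*Y + Z) (Y*Z) (Y^2) (Y^2*Z) (X*Z) (X*Y) (X*Y*Z) (X*Y^2) (X*Y^2*Z) +
      (1-s)^2*(Y+(1/2+s/8))*qG010_0 (X + (1/2+s/8)*Y + Z) (Y*Z) (X*Z) (X*Y) (X*Y*Z) +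
      2*s*(1-s)*(Y+(1/2+s/8))*qG010_1 (X + (1/2+s/8)*Y + Z) (Y*Z) (X*Z) (X*Y) (X*Y*Z) +
      s^2*(Y+(1/2+s/8))*qG010_2 (X + (1/2+s/8)*Y + Z) (Y*Z) (X*Z) (X*Y) (X*Y*Z) +
      (1-s)^2*(X+(1/2+s/8))*qG100_0 (X + (1/2+s/8)*Y + Z) (Y*Z) (Y^2) (Y^2*Z) (X*Z) (X*Y) (X*Y*Z) +
      2*s*(1-s)*(X+(1/2+s/8))*qG100_1 (X + (1/2+s/8)*Y + Z) (Y*Z) (Y^2) (Y^2*Z) (X*Z) (X*Y) (X*Y*Z) +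
      s^2*(X+(1/2+s/8))*qG100_2 (X + (1/2+s/8)*Y + Z) (Y*Z) (Y^2) (Y^2*Z) (X*Z) (X*Y) (X*Y*Z) +
      (1-s)^2*(X+(1/2+s/8))*(Y+(1/2+s/8))*qG110_0 (X + (1/2+s/8)*Y + Z) (Y*Z) (X*Z) (X*Y) (X*Y*Z) +
      2*s*(1-s)*(X+(1/2+s/8))*(Y+(1/2+s/8))*qG110_1 (X + (1/2+s/8)*Y + Z) (Y*Z) (X*Z) (X*Y) (X*Y*Z) +
      s^2*(X+(1/2+s/8))*(Y+(1/2+s/8))*qG110_2 (X + (1/2+s/8)*Y + Z) (Y*Z) (X*Z) (X*Y) (X*Y*Z) +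
      (1-s)*(1-(1/2+s/8)-(1/2+s/8)^2)*qH000_0 (Z) (Y) (X) (Y^2*Z) (X*Y^2*Z) +
      s*(1-(1/2+s/8)-(1/2+s/8)^2)*qH000_1 (Z) (Y) (X) (Y^2*Z) (X*Y^2*Z) +
      (1-s)*(1-(1/2+s/8)-(1/2+s/8)^2)*(Y+(1/2+s/8))*qH010_0 (Z) (Y) (X) (Y*Z) (X*Z) (X*Y) (X*Y*Z) +
      s*(1-(1/2+s/8)-(1/2+s/8)^2)*(Y+(1/2+s/8))*qH010_1 (Z) (Y) (X) (Y*Z) (X*Z) (X*Y) (X*Y*Z) +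
      (1-s)*(1-(1/2+s/8)-(1/2+s/8)^2)*(X+(1/2+s/8))*qH100_0 (Z) (Y) (X) (X*Z) (X*Y) (X*Y*Z) +
      s*(1-(1/2+s/8)-(1/2+s/8)^2)*(X+(1/2+s/8))*qH100_1 (Z) (Y) (X) (X*Z) (X*Y) (X*Y*Z) := by
    positivity
  linarith

end Pool.Agent.H968.RD
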