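import Mathlib
import Pool.Agent.H968.RD.Ident
import Pool.Agent.H968.RD.Coer

set_option autoImplicit false

noncomputable section

namespace Pool.Agent.H968.RD

open Filter Topology

/-- One step of the recursion decreases the Lyapunov function. -/
theorem step_ineq (s A B C D : ℝ) (h0 : 0 ≤ s) (h1 : s ≤ 1)
    (he : 0 ≤ 1-(1/2+s/8)-(1/2+s/8)^2)
    (hA : 1 - (1/2+s/8) ≤ A) (hB : 1 - (1/2+s/8) ≤ B) (hC : 0 < C)
    (hD : D = 1 - (1/2+s/8) + (1/2+s/8) * (A/B)) :
    1/2048*(1-(1/2+s/8)-(1/2+s/8)^2)*((A-1)^2+(B-1)^2+(C-1)^2) ≤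
      (A*B^2*C*(B*D)) * (W s A B C/(A*B*C) - W s B C D/(B*C*D)) := by
  have hA0 : 0 < A := by linarith
  have hB0 : 0 < B := by linarith
  have hk : 0 < 1 - (1/2+s/8) := by linarith
  have hk2 : 0 < 1/2+s/8 := by linarith
  have hD0 : 0 < D := by rw [hD]; positivity
  have hN : B*D = (1-(1/2+s/8))*B+(1/2+s/8)*A := by
    rw [hD]; field_simp
  have hm := main_ineq s (A-1) (B-1) (C-1) h0 h1 he (by linarith) (by linarith)
  have e1 : A - 1 + 1 = A := by ring
  have e2 : B - 1 + 1 = B := by ring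
  have e3 : C - 1 + 1 = C := by ring
  rw [e1, e2, e3, ← hN, T_eq _ _ _ _ hB0.ne'] at hm
  have e4 : B*D/B = D := by field_simp
  rw [e4] at hm
  refine hm.trans (le_of_eq ?_)
  field_simp

theorem coer (s A B C : ℝ) (h0 : 0 ≤ s) (h1 : s ≤ 1) (hA : 3/8 ≤ A) (hB : 3/8 ≤ B) (hC : 3/8 ≤ C) :
    1/2048*(A+B+C) - KK ≤ W s A B C/(A*B*C) := by
  have hA0 : 0 < A := by linarith
  have hB0 : 0 < B := by linarith
  have hC0 : 0 < C := by linarith
  have c0 := coer0 (A-1) (B-1) (C-1) (by linarith) (by linarith)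
  have c1 := coer1 (A-1) (B-1) (C-1) (by linarith) (by linarith)
  have e1 : A - 1 + 1 = A := by ring
  have e2 : B - 1 + 1 = B := by ring
  have e3 : C - 1 + 1 = C := by ring
  rw [e1, e2, e3] at c0 c1
  rw [le_div_iff₀ (by positivity)]
  have h2 : 0 ≤ 1 - s := by linarith
  have m0 := mul_nonneg h2 c0
  have m1 := mul_nonneg h0 c1
  unfold W
  nlinarith [m0, m1]

/-- Convergence of the normalised reciprocal sequence. -/
theorem conv (s : ℝ) (h0 : 0 ≤ s) (h1 : s ≤ 1) (he : 0 < 1-(1/2+s/8)-(1/2+s/8)^2)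
    (y : ℕ → ℝ) (hy : ∀ n, 1 - (1/2+s/8) ≤ y n)
    (hr : ∀ n, y (n+3) = 1 - (1/2+s/8) + (1/2+s/8) * (y n/y (n+1))) :
    Tendsto y atTop (𝓝 1) := by
  set k : ℝ := 1/2+s/8 with hk
  have hk1 : k ≤ 5/8 := by rw [hk]; linarith
  have hk0 : 1/2 ≤ k := by rw [hk]; linarith
  set e : ℝ := 1 - k - k^2 with hee
  have hy8 : ∀ n, 3/8 ≤ y n := fun n => le_trans (by linarith) (hy n)
  have hy0 : ∀ n, 0 < y n := fun n => lt_of_lt_of_le (by norm_num) (hy8 n)
  set V : ℕ → ℝ := fun n => W s (y n) (y (n+1)) (y (n+2))/(y n*y (n+1)*y (n+2)) with hV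
  have hstep : ∀ n, 1/2048*e*((y n-1)^2+(y (n+1)-1)^2+(y (n+2)-1)^2) ≤
      (y n*(y (n+1))^2*y (n+2)*(y (n+1)*y (n+3))) * (V n - V (n+1)) := by
    intro n
    exact step_ineq s (y n) (y (n+1)) (y (n+2)) (y (n+3)) h0 h1 he.le (hy n) (hy _) (hy0 _) (hr n)
  have hM : ∀ n, 0 < y n*(y (n+1))^2*y (n+2)*(y (n+1)*y (n+3)) := by
    intro n
    have := hy0 n; have := hy0 (n+1); have := hy0 (n+2); have := hy0 (n+3)
    positivity
  have hdec : ∀ n, V (n+1) ≤ V n := by
    intro n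
    have h := hstep n
    have h2 : 0 ≤ 1/2048*e*((y n-1)^2+(y (n+1)-1)^2+(y (n+2)-1)^2) := by positivity
    have h3 := h2.trans h
    have h4 := nonneg_of_mul_nonneg_right h3 (hM n)
    linarith
  have hanti : Antitone V := antitone_nat_of_succ_le hdec
  have hcoer : ∀ n, 1/2048*(y n+y (n+1)+y (n+2)) - KK ≤ V n := fun n =>
    coer s _ _ _ h0 h1 (hy8 _) (hy8 _) (hy8 _)
  have hVle : ∀ n, V n ≤ V 0 := fun n => hanti (Nat.zero_le n)
  set R : ℝ := 2048*(V 0 + KK) with hR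
  have hyR : ∀ n, y n ≤ R := by
    intro n
    have a := hcoer n
    have b := hVle n
    have c := hy0 (n+1)
    have dd := hy0 (n+2)
    rw [hR]; linarith
  have hR0 : 0 < R := lt_of_lt_of_le (hy0 0) (hyR 0)
  have hbdd : BddBelow (Set.range V) := by
    refine ⟨-KK, ?_⟩
    rintro _ ⟨n, rfl⟩
    have a := hcoer n
    have := hy0 n; have := hy0 (n+1); have := hy0 (n+2)
    linarith
  have hlim := tendsto_atTop_ciInf hanti hbdd
  have hlim1 := hlim.comp (tendsto_add_atTop_nat 1)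
  have hdiff : Tendsto (fun n => V n - V (n+1)) atTop (𝓝 0) := by
    have := hlim.sub hlim1
    simpa using this
  have hbig : ∀ n, (y n - 1)^2 ≤ (2048/e*R^6) * (V n - V (n+1)) := by
    intro n
    have h := hstep n
    have hd : 0 ≤ V n - V (n+1) := by have := hdec n; linarith
    have hMle : y n*(y (n+1))^2*y (n+2)*(y (n+1)*y (n+3)) ≤ R*R^2*R*(R*R) := by
      have a0 := hy0 n; have a1 := hy0 (n+1); have a2 := hy0 (n+2); have a3 := hy0 (n+3)
      have b0 := hyR n; have b1 := hyR (n+1); have b2 := hyR (n+2); have b3 := hyR (n+3)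
      gcongr
    have h5 : 1/2048*e*(y n-1)^2 ≤ R^6*(V n - V (n+1)) := by
      have h6 : 1/2048*e*(y n-1)^2 ≤ 1/2048*e*((y n-1)^2+(y (n+1)-1)^2+(y (n+2)-1)^2) := by
        have : 0 ≤ 1/2048*e*((y (n+1)-1)^2+(y (n+2)-1)^2) := by positivity
        nlinarith [this]
      calc _ ≤ _ := h6
        _ ≤ _ := h
        _ ≤ R*R^2*R*(R*R) * (V n - V (n+1)) := mul_le_mul_of_nonneg_right hMle hd
        _ = R^6*(V n - V (n+1)) := by ring
    have h7 : (2048/e)*(1/2048*e*(y n-1)^2) ≤ (2048/e)*(R^6*(V n - V (n+1))) :=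
      mul_le_mul_of_nonneg_left h5 (by positivity)
    have h8 : (2048/e)*(1/2048*e*(y n-1)^2) = (y n - 1)^2 := by
      field_simp
    rw [h8] at h7
    calc _ ≤ _ := h7
      _ = _ := by ring
  have hsq : Tendsto (fun n => (y n - 1)^2) atTop (𝓝 0) := by
    refine squeeze_zero (fun n => sq_nonneg _) hbig ?_
    have := hdiff.const_mul (2048/e*R^6)
    simpa using this
  have habs : Tendsto (fun n => |y n - 1|) atTop (𝓝 0) := by
    have h := hsq.sqrt
    simpa [Real.sqrt_sq_eq_abs] using h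
  have h9 : Tendsto (fun n => y n - 1) atTop (𝓝 0) := tendsto_zero_iff_abs_tendsto_zero _ |>.mpr habs
  have h10 := h9.add_const 1
  simpa using h10

theorem attract (C : ℝ) (hC1 : 1 < C) (hC2 : C < (1 + Real.sqrt 5)/2) (x : ℕ → ℝ)
    (hx0 : 0 < x 0) (hx1 : 0 < x 1) (hx2 : 0 < x 2)
    (hr : ∀ n, x (n+3) = x n/(C*x (n+1) + x n)) :
    Tendsto x atTop (𝓝 (1/(C+1))) := by
  have hC0 : 0 < C := by linarith
  have hpos3 : ∀ n, 0 < x n ∧ 0 < x (n+1) ∧ 0 < x (n+2) := by
    intro n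
    induction n with
    | zero => exact ⟨hx0, hx1, hx2⟩
    | succ n ih =>
      obtain ⟨a, b, c⟩ := ih
      refine ⟨b, c, ?_⟩
      rw [show n + 1 + 2 = n + 3 from rfl, hr n]
      positivity
  have hpos : ∀ n, 0 < x n := fun n => (hpos3 n).1
  have hgold : C^2 < C + 1 := by
    have h5 : Real.sqrt 5 ^ 2 = 5 := Real.sq_sqrt (by norm_num)
    have h5' : 0 ≤ Real.sqrt 5 := Real.sqrt_nonneg 5
    have : 2*C - 1 < Real.sqrt 5 := by linarith
    nlinarith [this, h5, h5']
  set k : ℝ := C/(C+1) with hk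
  have hk' : 1 - k = 1/(C+1) := by rw [hk]; field_simp; ring
  set s : ℝ := 8*k - 4 with hs
  have hks : 1/2 + s/8 = k := by rw [hs]; ring
  have hkhalf : 1/2 ≤ k := by rw [hk, div_le_div_iff₀ (by norm_num) (by linarith)]; linarith
  have hk58 : k ≤ 5/8 := by
    rw [hk, div_le_div_iff₀ (by linarith) (by norm_num)]
    have : C ≤ 5/3 := by nlinarith [hgold]
    linarith
  have he : 0 < 1 - k - k^2 := by
    have : 1 - k - k^2 = (C + 1 - C^2)/(C+1)^2 := by
      rw [hk]; field_simp; ring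
    rw [this]
    apply div_pos
    · linarith
    · positivity
  set Y : ℕ → ℝ := fun n => 1/((C+1)*x n) with hY
  have hYpos : ∀ n, 0 < Y n := fun n => by
    have := hpos n
    simp only [hY]; positivity
  have hYr : ∀ n, Y (n+3) = 1 - k + k*(Y n/Y (n+1)) := by
    intro n
    have a := hpos n
    have b := hpos (n+1)
    simp only [hY, hr n, hk]
    field_simp
    ring
  have hYge : ∀ n, 1 - k ≤ Y (n+3) := by
    intro n
    rw [hYr n]
    have a := hYpos n
    have b := hYpos (n+1)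
    have : 0 ≤ k*(Y n/Y (n+1)) := by
      have : 0 < k := by linarith
      positivity
    linarith
  have hc := conv s (by rw [hs]; linarith) (by rw [hs]; linarith) (by rw [hks]; exact he)
    (fun n => Y (n+3)) (fun n => by rw [hks]; exact hYge n) (fun n => by
      rw [hks]
      have := hYr (n+3)
      simpa [add_assoc, add_comm, add_left_comm] using this)
  have hc2 : Tendsto Y atTop (𝓝 1) := (tendsto_add_atTop_iff_nat 3).mp hc
  have hx : x = fun n => (1/(C+1)) * (Y n)⁻¹ := by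
    funext n
    have := hpos n
    simp only [hY]
    field_simp
  rw [hx]
  have h := (hc2.inv₀ one_ne_zero).const_mul (1/(C+1))
  simpa using h

end Pool.Agent.H968.RD
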